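import Pool.Agent.Helper61.Tri.Goals

set_option autoImplicit false

open Finset

namespace Pool.Agent.Helper17.Tri

open Pool.Agent.Helper61.Tri

noncomputable section

open scoped Classical

variable {V : Type}

/-- an intersecting family of pairs is a star or has at most 6 members -/
theorem inter_pairs (E : Finset (V × V)) (hne : ∀ e ∈ E, e.1 ≠ e.2)
    (hI : ∀ e ∈ E, ∀ f ∈ E, e.1 = f.1 ∨ e.1 = f.2 ∨ e.2 = f.1 ∨ e.2 = f.2) :
    E.card ≤ 6 ∨ ∃ u, ∀ e ∈ E, e.1 = u ∨ e.2 = u := by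
  by_contra hcon
  push Not at hcon
  obtain ⟨h6, hu⟩ := hcon
  set P : V → V → Prop := fun x y => (x, y) ∈ E ∨ (y, x) ∈ E with hP
  have hPs : ∀ x y, P x y → P y x := by
    intro x y h
    exact h.symm
  have hPI : ∀ x y z w, P x y → P z w → x = z ∨ x = w ∨ y = z ∨ y = w := by
    intro x y z w h h'
    rcases h with h | h <;> rcases h' with h' | h'
    · exact hI _ h _ h'
    · have := hI _ h _ h'
      simp only at this
      tauto
    · have := hI _ h _ h'
      simp only at this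
      tauto
    · have := hI _ h _ h'
      simp only at this
      tauto
  have hPn : ∀ x y, P x y → x ≠ y := by
    intro x y h
    rcases h with h | h
    · exact hne _ h
    · exact (hne _ h).symm
  have hE : E.Nonempty := by
    rw [← card_pos]
    omega
  obtain ⟨⟨a, b⟩, hab⟩ := hE
  have hPab : P a b := Or.inl hab
  have hab' := hPn _ _ hPab
  -- an edge missing a
  have hmiss : ∀ t t', P t t' → ∃ z, P t' z ∧ z ≠ t ∧ z ≠ t' := by
    intro t t' htt
    obtain ⟨⟨c, d⟩, hcd, h1, h2⟩ := hu t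
    simp only at h1 h2
    have hPcd : P c d := Or.inl hcd
    have hn := hPn _ _ hPcd
    rcases hPI _ _ _ _ htt hPcd with h | h | h | h
    · exact absurd h.symm h1
    · exact absurd h.symm h2
    · exact ⟨d, h ▸ hPcd, h2, by rw [h]; exact hn.symm⟩
    · exact ⟨c, h ▸ hPs _ _ hPcd, h1, by rw [h]; exact hn⟩
  obtain ⟨z, hbz, hza, hzb⟩ := hmiss a b hPab
  obtain ⟨z', haz', hzb', hza'⟩ := hmiss b a (hPs _ _ hPab)
  have hzz : z' = z := by
    rcases hPI _ _ _ _ hbz haz' with h | h | h | h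
    · exact absurd h.symm hab'
    · exact absurd h.symm hzb'
    · exact absurd h hza
    · exact h.symm
  subst hzz
  have hsub : E ⊆ ({a, b, z'} : Finset V).offDiag := by
    rintro ⟨x, y⟩ hxy
    have hPxy : P x y := Or.inl hxy
    have hn := hPn _ _ hPxy
    have hgen : ∀ s t, P s t → (s = a ∨ s = b ∨ s = z') := by
      intro s t hst
      have e1 := hPI _ _ _ _ hst hPab
      have e2 := hPI _ _ _ _ hst hbz
      have e3 := hPI _ _ _ _ hst haz'
      by_contra hx
      rw [not_or, not_or] at hx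
      obtain ⟨g1, g2, g3⟩ := hx
      have f1 : t = a ∨ t = b := (e1.resolve_left g1).resolve_left g2
      have f2 : t = b ∨ t = z' := (e2.resolve_left g2).resolve_left g3
      have f3 : t = a ∨ t = z' := (e3.resolve_left g1).resolve_left g3
      rcases f1 with f1 | f1
      · rcases f2 with f2 | f2
        · exact hab' (f1.symm.trans f2)
        · exact hza (f2.symm.trans f1)
      · rcases f3 with f3 | f3
        · exact hab' (f3.symm.trans f1)
        · exact hzb (f3.symm.trans f1)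
    rw [mem_offDiag]
    simp only [mem_insert, mem_singleton]
    exact ⟨hgen x y hPxy, hgen y x (hPs _ _ hPxy), hn⟩
  have hc := card_le_card hsub
  have h3 : ({a, b, z'} : Finset V).card ≤ 3 := card_le_three
  rw [offDiag_card] at hc
  have h9 : ∀ k : ℕ, k ≤ 3 → k * k - k ≤ 6 := by
    intro k hk
    have : k = 0 ∨ k = 1 ∨ k = 2 ∨ k = 3 := by omega
    rcases this with h | h | h | h <;> subst h <;> decide
  have := h9 _ h3
  omega

variable [Fintype V]

/-- pairs of `tr G p` meeting `X` in the first coordinate -/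
theorem fibre_bound (G : SimpleGraph V) (X : Finset V) (p : V) (s K : ℕ) (hX : X.card = s) :
    ((tr G p).filter fun e => e.1 ∈ X).card ≤
      (X.filter fun d => lnk G K p d).card * (nb G p).card + s * K := by
  set A := (tr G p).filter fun e => e.1 ∈ X with hA
  have h1 : A.card = ∑ x ∈ X, (A.filter fun e => e.1 = x).card := by
    refine card_eq_sum_card_fiberwise ?_
    intro e he
    rw [mem_coe, hA, mem_filter] at he
    exact he.2
  have h2 : ∀ x ∈ X, (A.filter fun e => e.1 = x).card ≤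
      if lnk G K p x then (nb G p).card else K := by
    intro x _
    have hinj : (A.filter fun e => e.1 = x).card ≤ (cn G p x).card := by
      refine card_le_card_of_injOn (fun e => e.2) ?_ ?_
      · intro e he
        simp only [coe_filter, Set.mem_ofPred_eq, hA, mem_filter, tr, mem_univ, true_and] at he
        simp only [cn, coe_filter, mem_univ, true_and, Set.mem_ofPred_eq]
        obtain ⟨⟨⟨g1, g2, g3⟩, _⟩, g4⟩ := he
        rw [g4] at g3
        exact ⟨g2, g3⟩
      · intro e he f hf hef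
        simp only [coe_filter, Set.mem_ofPred_eq] at he hf
        exact Prod.ext (he.2.trans hf.2.symm) hef
    split_ifs with hl
    · refine hinj.trans (card_le_card ?_)
      intro w hw
      simp only [cn, mem_filter, mem_univ, true_and] at hw
      simp only [nb, mem_filter, mem_univ, true_and]
      exact hw.1
    · by_cases hadj : G.Adj p x
      · have : ¬ K ≤ (cn G p x).card := fun h => hl ⟨hadj, h⟩
        omega
      · have : (A.filter fun e => e.1 = x) = ∅ := by
          apply filter_eq_empty_iff.2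
          intro e he hex
          simp only [hA, mem_filter, tr, mem_univ, true_and] at he
          apply hadj
          rw [← hex]
          exact he.1.1
        rw [this]
        simp
  rw [h1]
  refine (sum_le_sum h2).trans ?_
  rw [sum_ite, sum_const, sum_const, smul_eq_mul, smul_eq_mul]
  refine Nat.add_le_add le_rfl (Nat.mul_le_mul ?_ le_rfl)
  rw [← hX]
  exact card_filter_le _ _

theorem fibre_bound' (G : SimpleGraph V) (X : Finset V) (p : V) (s K : ℕ) (hX : X.card = s) :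
    ((tr G p).filter fun e => e.2 ∈ X).card ≤
      (X.filter fun d => lnk G K p d).card * (nb G p).card + s * K := by
  refine le_trans (le_of_eq ?_) (fibre_bound G X p s K hX)
  refine card_bij (fun e _ => e.swap) ?_ ?_ ?_
  · intro e he
    simp only [mem_filter, tr, mem_univ, true_and, Prod.fst_swap, Prod.snd_swap] at he ⊢
    exact ⟨⟨he.1.2.1, he.1.1, he.1.2.2.symm⟩, he.2⟩
  · intro e _ f _ h
    exact Prod.swap_injective h
  · intro e he
    refine ⟨e.swap, ?_, Prod.swap_swap e⟩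
    simp only [mem_filter, tr, mem_univ, true_and, Prod.fst_swap, Prod.snd_swap] at he ⊢
    exact ⟨⟨he.1.2.1, he.1.1, he.1.2.2.symm⟩, he.2⟩

/-- ordered pairs forming a triangle of `G - X` with `p`, at least one being in `Qs` -/
def EQ (G : SimpleGraph V) (X : Finset V) (p : V) : Finset (V × V) :=
  (tr (within G Xᶜ) p).filter fun e => e.1 ∈ Qs G X ∨ e.2 ∈ Qs G X

/-- ordered pairs inside `Us` forming a triangle with `p` -/
def UU (G : SimpleGraph V) (X : Finset V) (p : V) : Finset (V × V) :=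
  (tr G p).filter fun e => e.1 ∈ Us G X ∧ e.2 ∈ Us G X

theorem tr_bound (G : SimpleGraph V) (X : Finset V) (p : V) (s K : ℕ) (hX : X.card = s)
    (hp : p ∉ X) :
    (tr G p).card ≤ 2 * ((X.filter fun d => lnk G K p d).card * (nb G p).card + s * K)
      + (EQ G X p).card + (UU G X p).card := by
  have hsub : tr G p ⊆ (((tr G p).filter fun e => e.1 ∈ X) ∪ ((tr G p).filter fun e => e.2 ∈ X)) ∪
      (EQ G X p ∪ UU G X p) := by
    intro e he
    simp only [mem_union, mem_filter, EQ, UU]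
    by_cases h1 : e.1 ∈ X
    · exact Or.inl (Or.inl ⟨he, h1⟩)
    by_cases h2 : e.2 ∈ X
    · exact Or.inl (Or.inr ⟨he, h2⟩)
    right
    by_cases h3 : e.1 ∈ Us G X ∧ e.2 ∈ Us G X
    · exact Or.inr ⟨he, h3⟩
    · left
      refine ⟨?_, ?_⟩
      · simp only [tr, mem_filter, mem_univ, true_and] at he ⊢
        simp only [within, mem_compl]
        exact ⟨⟨he.1, hp, h1⟩, ⟨he.2.1, hp, h2⟩, ⟨he.2.2, h1, h2⟩⟩
      · simp only [Us, mem_filter, mem_univ, true_and] at h3
        tauto
  have h := card_le_card hsub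
  have u1 := card_union_le (((tr G p).filter fun e => e.1 ∈ X) ∪
    ((tr G p).filter fun e => e.2 ∈ X)) (EQ G X p ∪ UU G X p)
  have u2 := card_union_le ((tr G p).filter fun e => e.1 ∈ X) ((tr G p).filter fun e => e.2 ∈ X)
  have u3 := card_union_le (EQ G X p) (UU G X p)
  have b1 := fibre_bound G X p s K hX
  have b2 := fibre_bound' G X p s K hX
  omega

/-- the first configuration is excluded -/
def N1 (G' : SimpleGraph V) (Q : Finset V) : Prop :=
  ∀ v a a' b b', G'.Adj v a → G'.Adj v a' → G'.Adj a a' → G'.Adj v b → G'.Adj v b' →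
      G'.Adj b b' → a ∈ Q → b ∈ Q → a ≠ b → a ≠ b' → a' ≠ b → a' ≠ b' → False

theorem EQ_star (G : SimpleGraph V) (X : Finset V) (p : V) (h1 : N1 (within G Xᶜ) (Qs G X)) :
    (EQ G X p).card ≤ 6 ∨ ∃ u, ∀ e ∈ EQ G X p, e.1 = u ∨ e.2 = u := by
  apply inter_pairs
  · intro e he
    simp only [EQ, tr, mem_filter, mem_univ, true_and] at he
    exact he.1.2.2.ne
  · intro e he f hf
    simp only [EQ, tr, mem_filter, mem_univ, true_and] at he hf
    obtain ⟨⟨e1, e2, e3⟩, e4⟩ := he
    obtain ⟨⟨f1, f2, f3⟩, f4⟩ := hf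
    by_contra hcon
    push Not at hcon
    obtain ⟨c1, c2, c3, c4⟩ := hcon
    rcases e4 with e4 | e4 <;> rcases f4 with f4 | f4
    · exact h1 p e.1 e.2 f.1 f.2 e1 e2 e3 f1 f2 f3 e4 f4 c1 c2 c3 c4
    · exact h1 p e.1 e.2 f.2 f.1 e1 e2 e3 f2 f1 f3.symm e4 f4 c2 c1 c4 c3
    · exact h1 p e.2 e.1 f.1 f.2 e2 e1 e3.symm f1 f2 f3 e4 f4 c3 c4 c1 c2
    · exact h1 p e.2 e.1 f.2 f.1 e2 e1 e3.symm f2 f1 f3.symm e4 f4 c4 c3 c2 c1

/-- third vertices of the triangles of `G - X` on `p`, `u` -/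
def Y (G : SimpleGraph V) (X : Finset V) (p u : V) : Finset V :=
  univ.filter fun y => (within G Xᶜ).Adj p y ∧ (within G Xᶜ).Adj u y

theorem EQ_Y (G : SimpleGraph V) (X : Finset V) (p u : V)
    (hu : ∀ e ∈ EQ G X p, e.1 = u ∨ e.2 = u) : (EQ G X p).card ≤ 2 * (Y G X p u).card := by
  have hsub : EQ G X p ⊆ ((Y G X p u).image fun y => (u, y)) ∪ ((Y G X p u).image fun y => (y, u)) := by
    rintro ⟨a, b⟩ he
    have h := hu _ he
    simp only [EQ, tr, mem_filter, mem_univ, true_and] at he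
    simp only at h
    simp only [mem_union, mem_image, Y, mem_filter, mem_univ, true_and, Prod.mk.injEq]
    rcases h with h | h
    · left
      subst h
      exact ⟨b, ⟨he.1.2.1, he.1.2.2⟩, rfl, rfl⟩
    · right
      subst h
      exact ⟨a, ⟨he.1.1, he.1.2.2.symm⟩, rfl, rfl⟩
  have h := card_le_card hsub
  have h2 := card_union_le ((Y G X p u).image fun y => (u, y)) ((Y G X p u).image fun y => (y, u))
  have h3 := card_image_le (s := Y G X p u) (f := fun y => (u, y))
  have h4 := card_image_le (s := Y G X p u) (f := fun y => (y, u))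
  omega

theorem Y_nb (G : SimpleGraph V) (X : Finset V) (p u : V) : (Y G X p u).card ≤ (nb G p).card := by
  apply card_le_card
  intro y hy
  simp only [Y, nb, within, mem_filter, mem_univ, true_and] at hy ⊢
  exact hy.1.1

theorem EQ_le (G : SimpleGraph V) (X : Finset V) (p : V) (h1 : N1 (within G Xᶜ) (Qs G X)) :
    (EQ G X p).card ≤ 2 * (nb G p).card + 6 := by
  rcases EQ_star G X p h1 with h | ⟨u, hu⟩
  · omega
  · have := EQ_Y G X p u hu
    have := Y_nb G X p u
    omega

/-- many leaves -/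
def Lf (G : SimpleGraph V) (X : Finset V) (p u : V) : Prop :=
  (Fintype.card V : ℝ) / 5 ≤ (((Y G X p u).filter fun q => q ∈ Qs G X).card : ℝ)

theorem Lf_ex {G : SimpleGraph V} {X : Finset V} {p u : V} (h : Lf G X p u)
    (hn : (25 : ℝ) < (Fintype.card V : ℝ)) (F : Finset V) (hF : F.card ≤ 5) :
    ∃ q ∈ Qs G X, (within G Xᶜ).Adj p q ∧ (within G Xᶜ).Adj u q ∧ q ∉ F := by
  by_contra hcon
  push Not at hcon
  have hsub : ((Y G X p u).filter fun q => q ∈ Qs G X) ⊆ F := by
    intro q hq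
    simp only [Y, mem_filter, mem_univ, true_and] at hq
    exact hcon q hq.2 hq.1.1 hq.1.2
  have h2 := card_le_card hsub
  unfold Lf at h
  have h3 : ((((Y G X p u).filter fun q => q ∈ Qs G X).card : ℕ) : ℝ) ≤ 5 := by
    exact_mod_cast h2.trans hF
  linarith

/-- The main counting: a vertex of `Us` has many triangles inside `Us`, or is of type alpha. -/
theorem key (G : SimpleGraph V) (X : Finset V) (s K : ℕ) (hs : 2 ≤ s) (hX : X.card = s)
    (h1 : N1 (within G Xᶜ) (Qs G X)) (C ε n : ℝ) (hn : n = Fintype.card V) (hε0 : 0 < ε)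
    (hεs : 24 * 12 * (s : ℝ) * ε ≤ 1) (hC : 12 * (|C| + 2 * s * K + 6) ≤ n)
    (hU : ((Us G X).card : ℝ) ≤ ε * n)
    (hdeg : ∀ v, v ∉ X → ((nb G v).card : ℝ) ≤ (1 / 2 + ε) * n)
    (htr : ∀ v, (s : ℝ) * n - C ≤ ((tr G v).card : ℝ)) (p : V) (hp : p ∈ Us G X)
    (hUU : ((UU G X p).card : ℝ) < n / 6) :
    (∃ x0 ∈ X, ¬ G.Adj p x0) ∧ (∃ d ∈ X, lnk G K p d) ∧
      ∃ u, (within G Xᶜ).Adj p u ∧ Lf G X p u := by
  have hp' : p ∉ X ∧ p ∉ Qs G X := by
    simpa [Us] using hp
  have htb := tr_bound G X p s K hX hp'.1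
  have hEQ := EQ_le G X p h1
  set j := (X.filter fun d => lnk G K p d).card with hj
  set D := (nb G p).card with hD
  have hjs : j ≤ s := by
    rw [← hX]
    exact card_filter_le _ _
  have hs2 : (2 : ℝ) ≤ s := by exact_mod_cast hs
  have htbR : ((tr G p).card : ℝ) ≤ 2 * ((j : ℝ) * D + s * K) + (EQ G X p).card
      + (UU G X p).card := by
    exact_mod_cast htb
  have hEQR : ((EQ G X p).card : ℝ) ≤ 2 * D + 6 := by
    exact_mod_cast hEQ
  have ht := htr p
  have hCabs : C ≤ |C| := le_abs_self C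
  have hC0 : 0 ≤ |C| := abs_nonneg C
  have hD0 : (0 : ℝ) ≤ D := Nat.cast_nonneg _
  have hj0 : (0 : ℝ) ≤ j := Nat.cast_nonneg _
  have hK0 : (0 : ℝ) ≤ K := Nat.cast_nonneg _
  have hsK : (0 : ℝ) ≤ s * K := by positivity
  have hn0 : 0 < n := by nlinarith
  have hD2 := hdeg p hp'.1
  rw [← hD] at hD2
  -- D is at least n/10
  have hDn : n / 10 ≤ (D : ℝ) := by
    by_contra hlt
    push Not at hlt
    have hjR : (j : ℝ) ≤ s := by exact_mod_cast hjs
    have e1 : (j : ℝ) * D ≤ s * (n / 10) := by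
      apply mul_le_mul hjR hlt.le hD0 (by linarith)
    nlinarith
  obtain ⟨x0, hx0, hx0'⟩ : ∃ x0 ∈ X, ¬ G.Adj p x0 := by
    by_contra hcon
    push Not at hcon
    apply hp'.2
    simp only [Qs, mem_filter, mem_univ, true_and]
    refine ⟨hp'.1, hcon, ?_⟩
    rw [← hn]
    exact hDn
  have hjs1 : j + 1 ≤ s := by
    rw [← hX]
    have : (X.filter fun d => lnk G K p d) ⊂ X := by
      rw [ssubset_iff_subset_ne]
      refine ⟨filter_subset _ _, ?_⟩
      intro he
      rw [← he, mem_filter] at hx0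
      exact hx0' hx0.2.1
    exact card_lt_card this
  have hjeq : j + 1 = s := by
    by_contra hne
    have hj2 : j + 2 ≤ s := by omega
    have hjR : (j : ℝ) + 2 ≤ s := by exact_mod_cast hj2
    have e1 : ((j : ℝ) + 1) * D ≤ (s - 1) * ((1 / 2 + ε) * n) := by
      apply mul_le_mul (by linarith) hD2 hD0 (by linarith)
    have e2 : ε * n * (24 * 12 * (s : ℝ)) ≤ n := by nlinarith
    nlinarith [mul_pos hε0 hn0]
  have hjR : (j : ℝ) + 1 = s := by exact_mod_cast hjeq
  have e2 : ε * n * (24 * 12 * (s : ℝ)) ≤ n := by nlinarith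
  have hEQn : n / 2 ≤ ((EQ G X p).card : ℝ) := by
    have e1 : (j : ℝ) * D ≤ (s - 1) * ((1 / 2 + ε) * n) := by
      apply mul_le_mul (by linarith) hD2 hD0 (by linarith)
    nlinarith [mul_pos hε0 hn0]
  refine ⟨⟨x0, hx0, hx0'⟩, ?_, ?_⟩
  · have hjpos : 0 < j := by omega
    rw [hj, card_pos] at hjpos
    obtain ⟨d, hd⟩ := hjpos
    rw [mem_filter] at hd
    exact ⟨d, hd.1, hd.2⟩
  · have h6 : ¬ (EQ G X p).card ≤ 6 := by
      intro h
      have h' : ((EQ G X p).card : ℝ) ≤ 6 := by exact_mod_cast h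
      nlinarith
    obtain ⟨u, hu⟩ := (EQ_star G X p h1).resolve_left h6
    have hY := EQ_Y G X p u hu
    have hYR : ((EQ G X p).card : ℝ) ≤ 2 * (Y G X p u).card := by exact_mod_cast hY
    refine ⟨u, ?_, ?_⟩
    · have hne : (EQ G X p).Nonempty := by
        rw [← card_pos]
        omega
      obtain ⟨e, he⟩ := hne
      have h := hu e he
      simp only [EQ, tr, mem_filter, mem_univ, true_and] at he
      rcases h with h | h
      · rw [← h]
        exact he.1.1
      · rw [← h]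
        exact he.1.2.1
    · unfold Lf
      have hsub : Y G X p u ⊆ ((Y G X p u).filter fun q => q ∈ Qs G X) ∪ Us G X := by
        intro y hy
        by_cases hq : y ∈ Qs G X
        · exact mem_union_left _ (mem_filter.2 ⟨hy, hq⟩)
        · apply mem_union_right
          simp only [Y, within, mem_filter, mem_univ, true_and, mem_compl] at hy
          simp only [Us, mem_filter, mem_univ, true_and]
          exact ⟨hy.1.2.2, hq⟩
      have h2 := (card_le_card hsub).trans (card_union_le _ _)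
      have h3 : ((Y G X p u).card : ℝ) ≤ (((Y G X p u).filter fun q => q ∈ Qs G X).card : ℝ)
          + (Us G X).card := by exact_mod_cast h2
      rw [← hn]
      nlinarith [mul_pos hε0 hn0]

/-- few vertices of `Us` have many triangles inside `Us` -/
theorem beta_few (G : SimpleGraph V) (X : Finset V) (M : ℕ)
    (hpeel : (ot (within G (Us G X))).card ≤ M * (oe (within G (Us G X))).card) (n ε : ℝ)
    (hε : 24 * (M : ℝ) * ε ≤ 1) (hn : 0 < n)
    (hU : ((Us G X).card : ℝ) ≤ ε * n) :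
    4 * (((Us G X).filter fun p => n / 6 ≤ ((UU G X p).card : ℝ)).card : ℝ) ≤ (Us G X).card := by
  set β := (Us G X).filter fun p => n / 6 ≤ ((UU G X p).card : ℝ) with hβ
  have h1 : (β.sigma fun p => UU G X p).card ≤ (ot (within G (Us G X))).card := by
    refine card_le_card_of_injOn (fun e => (e.1, e.2.1, e.2.2)) ?_ ?_
    · intro e he
      simp only [coe_sigma, Set.mem_sigma_iff, mem_coe, hβ, mem_filter, UU, tr, mem_univ,
        true_and] at he
      simp only [ot, within, coe_filter, mem_univ, true_and, Set.mem_ofPred_eq]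
      obtain ⟨⟨g1, _⟩, ⟨g2, g3, g4⟩, g5, g6⟩ := he
      exact ⟨⟨g2, g1, g5⟩, ⟨g3, g1, g6⟩, ⟨g4, g5, g6⟩⟩
    · rintro ⟨a, b⟩ _ ⟨c, d⟩ _ h
      simp only [Prod.mk.injEq] at h
      obtain ⟨h1, h2, h3⟩ := h
      subst h1
      have : b = d := Prod.ext h2 h3
      rw [this]
  rw [card_sigma] at h1
  have h2 : (oe (within G (Us G X))).card ≤ (Us G X).card * (Us G X).card := by
    rw [← card_product]
    apply card_le_card
    intro e he
    simp only [oe, within, mem_filter, mem_univ, true_and] at he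
    rw [mem_product]
    exact ⟨he.2.1, he.2.2⟩
  have h3 : (β.card : ℝ) * (n / 6) ≤ ((∑ p ∈ β, (UU G X p).card : ℕ) : ℝ) := by
    push_cast
    rw [← nsmul_eq_mul]
    apply card_nsmul_le_sum
    intro p hp
    rw [hβ, mem_filter] at hp
    exact hp.2
  have h4 : ((∑ p ∈ β, (UU G X p).card : ℕ) : ℝ) ≤ M * ((Us G X).card * (Us G X).card) := by
    have := h1.trans (hpeel.trans (Nat.mul_le_mul le_rfl h2))
    exact_mod_cast this
  have hUn : (0 : ℝ) ≤ (Us G X).card := Nat.cast_nonneg _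
  have hM : (0 : ℝ) ≤ M := Nat.cast_nonneg _
  have h5 : (M : ℝ) * ((Us G X).card * (Us G X).card) ≤ M * ((Us G X).card * (ε * n)) := by
    apply mul_le_mul_of_nonneg_left _ hM
    exact mul_le_mul_of_nonneg_left hU hUn
  have h6 : 24 * ((M : ℝ) * ((Us G X).card * (ε * n))) ≤ (Us G X).card * n := by
    have : 24 * ((M : ℝ) * ((Us G X).card * (ε * n))) = (24 * M * ε) * ((Us G X).card * n) := by
      ring
    rw [this]
    have h0 : 0 ≤ (Us G X).card * n := by positivity
    nlinarith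
  have h7 : (4 * (β.card : ℝ)) * n ≤ (Us G X).card * n := by
    nlinarith
  exact le_of_mul_le_mul_right h7 hn

/-- the second configuration is excluded -/
def N2 (G : SimpleGraph V) (K : ℕ) (X : Finset V) : Prop :=
  ∀ p1 q1 r1 p2 q2 r2 d1 d2, (within G Xᶜ).Adj p1 q1 → (within G Xᶜ).Adj p1 r1 →
      (within G Xᶜ).Adj q1 r1 → (within G Xᶜ).Adj p2 q2 →
      (within G Xᶜ).Adj p2 r2 → (within G Xᶜ).Adj q2 r2 →
      Disjoint ({p1, q1, r1} : Finset V) {p2, q2, r2} →
      q1 ∈ Qs G X → q2 ∈ Qs G X → d1 ∈ X → d2 ∈ X → lnk G K p1 d1 → lnk G K p2 d2 → False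

omit [Fintype V] in
theorem card_five (a b c d e : V) : ({a, b, c, d, e} : Finset V).card ≤ 5 := by
  refine (card_insert_le _ _).trans ?_
  have := card_le_four (a := b) (b := c) (c := d) (d := e)
  omega

/-- combinatorial end of the proof -/
theorem finish (G : SimpleGraph V) (X : Finset V) (K : ℕ) (h1 : N1 (within G Xᶜ) (Qs G X))
    (h2 : N2 G K X) (n : ℝ) (hn : n = Fintype.card V) (hn25 : 25 < n)
    (hlQ : ∀ v ∈ Qs G X, ∃ d ∈ X, lnk G K v d)
    (hβ : 4 * (((Us G X).filter fun p => n / 6 ≤ ((UU G X p).card : ℝ)).card : ℝ) ≤ (Us G X).card)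
    (hα : ∀ p ∈ Us G X, ((UU G X p).card : ℝ) < n / 6 →
      (∃ x0 ∈ X, ¬ G.Adj p x0) ∧ (∃ d ∈ X, lnk G K p d) ∧
      ∃ u, (within G Xᶜ).Adj p u ∧ Lf G X p u) :
    Us G X = ∅ ∨ ∃ p u x0, p ∉ X ∧ x0 ∈ X ∧
      ¬ G.Adj p x0 ∧ (within G Xᶜ).Adj p u ∧ ∀ a b c, (within G Xᶜ).Adj a b →
        (within G Xᶜ).Adj a c → (within G Xᶜ).Adj b c →
        (p = a ∨ p = b ∨ p = c) ∧ (u = a ∨ u = b ∨ u = c) := by
  by_cases hE : Us G X = ∅
  · exact Or.inl hE
  right
  set G' := within G Xᶜ with hG'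
  set β := (Us G X).filter fun p => n / 6 ≤ ((UU G X p).card : ℝ) with hβd
  set α := (Us G X).filter fun p => ¬ (n / 6 ≤ ((UU G X p).card : ℝ)) with hαd
  have hsum : β.card + α.card = (Us G X).card := by
    rw [hβd, hαd]
    exact card_filter_add_card_filter_not _
  have hUpos : 0 < (Us G X).card := card_pos.2 (nonempty_iff_ne_empty.2 hE)
  have hβN : 4 * β.card ≤ (Us G X).card := by exact_mod_cast hβ
  have hαpos : 0 < α.card := by omega
  obtain ⟨p, hp⟩ := card_pos.1 hαpos
  have hp2 := mem_filter.1 hp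
  obtain ⟨⟨x0, hx0, hx0'⟩, ⟨d, hd, hpd⟩, u, hpu, hL⟩ := hα p hp2.1 (not_le.1 hp2.2)
  have hn25' : (25 : ℝ) < (Fintype.card V : ℝ) := hn ▸ hn25
  have hpX : p ∉ X ∧ p ∉ Qs G X := by
    simpa [Us] using hp2.1
  -- every alpha vertex is p or u
  have hcl : ∀ p' ∈ α, p' = p ∨ p' = u := by
    intro p' hp'
    by_contra hcon
    push Not at hcon
    obtain ⟨hne, hneu⟩ := hcon
    have hp'2 := mem_filter.1 hp'
    obtain ⟨_, ⟨d', hd', hpd'⟩, u', hpu', hL'⟩ := hα p' hp'2.1 (not_le.1 hp'2.2)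
    have hp'X : p' ∉ X ∧ p' ∉ Qs G X := by
      simpa [Us] using hp'2.1
    obtain ⟨q, hqQ, hpq, huq, hqF⟩ := Lf_ex hL hn25' {p', u', p, u, p} (card_five _ _ _ _ _)
    obtain ⟨q', hqQ', hpq', huq', hqF'⟩ := Lf_ex hL' hn25' {p, u, q, p', u'} (card_five _ _ _ _ _)
    simp only [mem_insert, mem_singleton, not_or] at hqF hqF'
    by_cases e1 : u' = p
    · rw [e1] at huq' hpu'
      exact h1 p q u q' p' hpq hpu huq.symm huq' hpu'.symm hpq'.symm hqQ hqQ' (Ne.symm hqF'.2.2.1)
        hqF.1 (Ne.symm hqF'.2.1) (Ne.symm hneu)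
    by_cases e2 : u' = u
    · rw [e2] at huq' hpu'
      exact h1 u q p q' p' huq hpu.symm hpq.symm huq' hpu'.symm hpq'.symm hqQ hqQ'
        (Ne.symm hqF'.2.2.1) hqF.1 (Ne.symm hqF'.1) (Ne.symm hne)
    refine h2 p q u p' q' u' d d' hpq hpu huq.symm hpq' hpu' huq'.symm ?_ hqQ hqQ' hd hd' hpd hpd'
    rw [disjoint_left]
    intro z hz hz'
    simp only [mem_insert, mem_singleton] at hz hz'
    rcases hz with hz | hz | hz <;> subst hz <;> rcases hz' with hz' | hz' | hz'
    · exact hne hz'.symm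
    · exact hqF'.1 hz'.symm
    · exact e1 hz'.symm
    · exact hqF.1 hz'
    · exact hqF'.2.2.1 hz'.symm
    · exact hqF.2.1 hz'
    · exact hneu hz'.symm
    · exact hqF'.2.1 hz'.symm
    · exact e2 hz'.symm
  have hαsub : α ⊆ {p, u} := by
    intro z hz
    rw [mem_insert, mem_singleton]
    exact hcl z hz
  have hα2 : α.card ≤ 2 := (card_le_card hαsub).trans card_le_two
  have hU2 : (Us G X).card ≤ 2 := by omega
  have hβ0 : ∀ z ∈ Us G X, z ∈ α := by
    intro z hz
    rw [hαd, mem_filter]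
    refine ⟨hz, ?_⟩
    have hUU0 : UU G X z = ∅ := by
      rw [UU, filter_eq_empty_iff]
      rintro ⟨a, b⟩ he ⟨ha, hb⟩
      simp only [tr, mem_filter, mem_univ, true_and] at he
      simp only at ha hb
      have h3 : ({z, a, b} : Finset V).card = 3 := by
        rw [card_eq_three]
        exact ⟨z, a, b, he.1.ne, he.2.1.ne, he.2.2.ne, rfl⟩
      have hs : ({z, a, b} : Finset V) ⊆ Us G X := by
        intro w hw
        simp only [mem_insert, mem_singleton] at hw
        rcases hw with hw | hw | hw <;> subst hw <;> assumption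
      have := card_le_card hs
      omega
    rw [hUU0]
    simp only [card_empty, Nat.cast_zero, not_le]
    linarith
  have hcov : ∀ z, z ∉ X → z ≠ p → z ≠ u → z ∈ Qs G X := by
    intro z hz hzp hzu
    by_contra hzQ
    have hzU : z ∈ Us G X := by
      simp only [Us, mem_filter, mem_univ, true_and]
      exact ⟨hz, hzQ⟩
    rcases hcl z (hβ0 z hzU) with h | h
    · exact hzp h
    · exact hzu h
  have hX1 : ∀ {a b}, G'.Adj a b → a ∉ X := by
    intro a b h
    rw [hG'] at h
    simp only [within, mem_compl] at h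
    exact h.2.1
  refine ⟨p, u, x0, hpX.1, hx0, hx0', hpu, ?_⟩
  -- every triangle contains p and u
  have hT : ∀ a b c, G'.Adj a b → G'.Adj a c → G'.Adj b c → (p = a ∨ p = b ∨ p = c) ∨
      (u = a ∨ u = b ∨ u = c) := by
    intro a b c hab hac hbc
    by_contra hcon
    push Not at hcon
    obtain ⟨⟨c1, c2, c3⟩, c4, c5, c6⟩ := hcon
    obtain ⟨q, hqQ, hpq, huq, hqF⟩ := Lf_ex hL hn25' {a, b, c, p, u} (card_five _ _ _ _ _)
    simp only [mem_insert, mem_singleton, not_or] at hqF
    have haQ := hcov a (hX1 hab) (Ne.symm c1) (Ne.symm c4)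
    have hbQ := hcov b (hX1 hbc) (Ne.symm c2) (Ne.symm c5)
    obtain ⟨d', hd', had'⟩ := hlQ a haQ
    refine h2 p q u a b c d d' hpq hpu huq.symm hab hac hbc ?_ hqQ hbQ hd hd' hpd had'
    rw [disjoint_left]
    intro z hz hz'
    simp only [mem_insert, mem_singleton] at hz hz'
    rcases hz with hz | hz | hz <;> subst hz <;> rcases hz' with hz' | hz' | hz'
    · exact c1 hz'
    · exact c2 hz'
    · exact c3 hz'
    · exact hqF.1 hz'
    · exact hqF.2.1 hz'
    · exact hqF.2.2.1 hz'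
    · exact c4 hz'
    · exact c5 hz'
    · exact c6 hz'
  -- a triangle containing `v` and `a, b`, with `v, w` = `p, u` or `u, p`
  have hS : ∀ v w a b, (v = p ∧ w = u) ∨ (v = u ∧ w = p) → G'.Adj v a → G'.Adj v b →
      G'.Adj a b → w ≠ a → w ≠ b → False := by
    intro v w a b hvw hva hvb hab hwa hwb
    obtain ⟨q, hqQ, hpq, huq, hqF⟩ := Lf_ex hL hn25' {a, b, p, u, p} (card_five _ _ _ _ _)
    simp only [mem_insert, mem_singleton, not_or] at hqF
    have hvq : G'.Adj v q ∧ G'.Adj w q ∧ G'.Adj v w := by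
      rcases hvw with ⟨h, h'⟩ | ⟨h, h'⟩ <;> subst h <;> subst h'
      · exact ⟨hpq, huq, hpu⟩
      · exact ⟨huq, hpq, hpu.symm⟩
    have hav : a ≠ v := hva.ne'
    have haQ : a ∈ Qs G X := by
      rcases hvw with ⟨h, h'⟩ | ⟨h, h'⟩ <;> subst h <;> subst h'
      · exact hcov a (hX1 hab) hav (Ne.symm hwa)
      · exact hcov a (hX1 hab) (Ne.symm hwa) hav
    exact h1 v q w a b hvq.1 hvq.2.2 hvq.2.1.symm hva hvb hab hqQ haQ hqF.1 hqF.2.1 hwa hwb
  intro a b c hab hac hbc
  constructor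
  · by_contra hcon
    push Not at hcon
    obtain ⟨c1, c2, c3⟩ := hcon
    rcases (hT a b c hab hac hbc).resolve_left (by tauto) with h | h | h
    · exact hS a p b c (Or.inr ⟨h.symm, rfl⟩) hab hac hbc c2 c3
    · exact hS b p a c (Or.inr ⟨h.symm, rfl⟩) hab.symm hbc hac c1 c3
    · exact hS c p a b (Or.inr ⟨h.symm, rfl⟩) hac.symm hbc.symm hab c1 c2
  · by_contra hcon
    push Not at hcon
    obtain ⟨c1, c2, c3⟩ := hcon
    rcases (hT a b c hab hac hbc).resolve_right (by tauto) with h | h | h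
    · exact hS a u b c (Or.inl ⟨h.symm, rfl⟩) hab hac hbc c2 c3
    · exact hS b u a c (Or.inl ⟨h.symm, rfl⟩) hab.symm hbc hac c1 c3
    · exact hS c u a b (Or.inl ⟨h.symm, rfl⟩) hac.symm hbc.symm hab c1 c2

theorem uevena : EPTools → Peel → LinkX → CEven → UEvenA := by
  intro hEP hPeel hLX hCE s hs κ hκ C
  obtain ⟨K, n1, hK⟩ := hCE s hs
  obtain ⟨n2, hL⟩ := hLX s K (by omega)
  set M : ℕ := 12 * s + 40 with hM
  have hMpos : (0 : ℝ) < M := by
    rw [hM]
    positivity
  set ε : ℝ := 1 / (24 * (M : ℝ)) with hε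
  have hε0 : 0 < ε := by
    rw [hε]
    positivity
  have hεM : 24 * (M : ℝ) * ε = 1 := by
    rw [hε]
    field_simp
  have hMs : (12 : ℝ) * s ≤ M := by
    rw [hM]
    push_cast
    linarith
  have hεs : 24 * 12 * (s : ℝ) * ε ≤ 1 := by nlinarith
  have hM40 : (40 : ℝ) ≤ M := by
    rw [hM]
    push_cast
    have : (0 : ℝ) ≤ s := Nat.cast_nonneg _
    linarith
  have hε40 : ε ≤ 1 / 40 := by nlinarith
  obtain ⟨n3, hn3⟩ := exists_nat_ge (12 * (|C| + 2 * s * K + 6))
  refine ⟨ε, hε0, n1 + n2 + n3 + 26, ?_⟩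
  intro V _ hV G X hHas hX hU hdeg htr G' hG'
  have hX' : Ctx G s X := by
    refine ⟨hX, hU.trans ?_⟩
    have : (0 : ℝ) ≤ (Fintype.card V : ℝ) := Nat.cast_nonneg _
    nlinarith
  obtain ⟨c1, c2⟩ := hK V (by omega) G X hX' G' hG'
  obtain ⟨l1, _, _⟩ := hL V (by omega) G X hX'
  subst hG'
  have hno : ¬ (Has Kind.P s G ∧ Has Kind.Ce s G) := by
    rintro ⟨g1, g2⟩
    rcases hκ with rfl | rfl
    · exact hHas g1
    · exact hHas g2
  have hN1 : N1 (within G Xᶜ) (Qs G X) := by
    intro v a a' b b' q1 q2 q3 q4 q5 q6 q7 q8 q9 q10 q11 q12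
    exact hno (c1 v a a' b b' q1 q2 q3 q4 q5 q6 q7 q8 q9 q10 q11 q12)
  have hN2 : N2 G K X := by
    intro p1 q1 r1 p2 q2 r2 d1 d2 h1 h2 h3 h4 h5 h6 h7 h8 h9 h10 h11 h12 h13
    exact hno (c2 p1 q1 r1 p2 q2 r2 d1 d2 h1 h2 h3 h4 h5 h6 h7 h8 h9 h10 h11 h12 h13)
  have hpeel : (ot (within G (Us G X))).card ≤ M * (oe (within G (Us G X))).card := by
    refine hPeel s (by omega) κ V _ ?_
    intro h
    have hle : within G (Us G X) ≤ G := by
      intro a b hab
      exact hab.1
    exact hHas (hEP.hasMono κ s hle h)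
  have hV26 : (26 : ℝ) ≤ (Fintype.card V : ℝ) := by
    exact_mod_cast (by omega : 26 ≤ Fintype.card V)
  have hV3 : 12 * (|C| + 2 * s * K + 6) ≤ (Fintype.card V : ℝ) := by
    refine hn3.trans ?_
    exact_mod_cast (by omega : n3 ≤ Fintype.card V)
  refine finish G X K hN1 hN2 (Fintype.card V) rfl (by linarith) ?_ ?_ ?_
  · intro v hv
    have hne : X.Nonempty := by
      rw [← card_pos]
      omega
    obtain ⟨d, hd⟩ := hne
    exact ⟨d, hd, l1 v hv d hd⟩
  · exact beta_few G X M hpeel _ ε hεM.le (by linarith) hU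
  · intro p hp hUU
    exact key G X s K hs hX hN1 C ε _ rfl hε0 hεs hV3 hU hdeg htr p hp hUU

end

end Pool.Agent.Helper17.Tri
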